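import Pool.Agent.H.MP_d06690_lc.A

set_option autoImplicit false

namespace Pool.Agent.Results.MP_d06690_lc.UnderCH

open Pool.Agent.H.MP_d06690_lc Cardinal Ordinal Set

theorem result : Cardinal.continuum.{0} = Cardinal.aleph 1 →
    ∃ G : SimpleGraph (Set.Iio ((Cardinal.aleph.{0} 2).ord ^ 2)),
      Nonempty (G.Coloring (Set.Iio (Cardinal.aleph.{0} 1).ord)) ∧
      IsEmpty (G.Coloring ℕ) ∧
      ∀ S : Set (Set.Iio ((Cardinal.aleph.{0} 2).ord ^ 2)),
        (∃ γ : Ordinal.{0}, γ < (Cardinal.aleph.{0} 2).ord ^ 2 ∧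
          ∃ f : S → Ordinal.{0},
            (∀ x y : S, x.1.1 < y.1.1 → f x < f y) ∧ ∀ x : S, f x < γ) →
        Nonempty ((G.induce S).Coloring ℕ) := by
  classical
  intro CH
  have h2 : (ℵ_ 2 : Cardinal.{0}) = Order.succ (ℵ_ 1) := by
    rw [succ_aleph, one_add_one_eq_two]
  have hr : (ℵ_ 2 : Cardinal.{0}).IsRegular := h2 ▸ isRegular_succ (aleph0_le_aleph 1)
  have hl := isSuccLimit_ord hr.aleph0_le
  have h0 : ℵ₀ < (ℵ_ 2 : Cardinal.{0}) := h2 ▸ (aleph0_le_aleph 1).trans_lt (Order.lt_succ _)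
  have hlt : ∀ d < (ℵ_ 2 : Cardinal.{0}).ord, d.card ≤ ℵ_ 1 := fun d hd => by
    rw [lt_ord, h2] at hd; exact Order.lt_succ_iff.1 hd
  have hcard : (ℵ_ 2 : Cardinal.{0}).ord.card = ℵ_ 2 := card_ord _
  rw [pow_two]
  obtain ⟨w, hw⟩ : ∃ w, w = (ℵ_ 2 : Cardinal.{0}).ord := ⟨_, rfl⟩
  rw [← hw] at hl hlt hcard ⊢
  have w0 : w ≠ 0 := hl.ne_bot
  have dv : ∀ x < w * w, x / w < w := fun x hx => (Ordinal.div_lt w0).2 hx
  have md : ∀ x, x % w < w := fun x => Ordinal.mod_lt x w0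
  have pr : ∀ a < w, ∀ b < w, w * a + b < w * w ∧ (w * a + b) / w = a ∧ (w * a + b) % w = b := by
    intro a ha b hb
    have e : (w * a + b) / w = a := by
      rw [Ordinal.mul_add_div _ w0, Ordinal.div_eq_zero_of_lt hb, add_zero]
    exact ⟨(Ordinal.div_lt w0).1 (e.symm ▸ ha), e, by
      rw [Ordinal.mul_add_mod_self, Ordinal.mod_eq_of_lt hb]⟩
  refine ⟨gr w _, ?_, ⟨fun c => ?_⟩, ?_⟩
  · let I := (ℵ_ 1 : Cardinal.{0}).ord.ToType
    have hI : #I = ℵ_ 1 := mk_ord_toType _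
    haveI : Nonempty I := by rw [← mk_ne_zero_iff, hI]; exact (aleph_pos 1).ne'
    obtain ⟨h, hh⟩ := inj (K := I → Bool) (d := w) (by
      rw [hcard, h2, ← power_def, mk_bool, hI]; exact Order.succ_le_of_lt (cantor _))
    obtain ⟨c, hc⟩ := col w h (Iio (w * w)) fun x hx hlt e => hlt.ne (hh (dv x hx) (md x) e)
    obtain ⟨e⟩ : Nonempty (I × Bool ↪ Iio (ℵ_ 1 : Cardinal.{0}).ord) := by
      rw [← Cardinal.lift_mk_le', Cardinal.mk_Iio_ordinal, Cardinal.lift_lift, card_ord]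
      refine Cardinal.lift_le.2 (le_of_eq ?_)
      rw [mk_prod, Cardinal.lift_id, Cardinal.lift_id, hI, mk_bool]
      exact mul_eq_left (aleph0_le_aleph 1) ((nat_lt_aleph0 2).le.trans (aleph0_le_aleph 1))
        two_ne_zero
    exact ⟨SimpleGraph.Coloring.mk (fun x => e (c x.1)) fun {x y} hxy hh => by
      rcases hxy with h | h
      · exact hc _ x.2 _ y.2 h (e.injective hh)
      · exact hc _ y.2 _ x.2 h (e.injective hh).symm⟩
  · let A : Iio w → Set ℕ := fun a => {n | ∃ b, ∃ h : b < w, a.1 < b ∧ c ⟨_, (pr a a.2 b h).1⟩ = n}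
    have key : ∀ a b : Iio w, a.1 < b.1 → A a ≠ A b := by
      intro a b hab e
      have : c ⟨_, (pr a a.2 b b.2).1⟩ ∈ A b := e ▸ ⟨b, b.2, hab, rfl⟩
      obtain ⟨d, d1, d2, d3⟩ := this
      refine c.valid (Or.inl ?_) d3.symm
      simp only [Sh, (pr a a.2 b b.2).2, (pr b b.2 d d1).2]
      exact ⟨hab, trivial, d2⟩
    have hA : Function.Injective A := fun a b e => by
      rcases lt_trichotomy a.1 b.1 with h | h | h
      · exact absurd e (key a b h)
      · exact Subtype.ext h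
      · exact absurd e.symm (key b a h)
    have := Cardinal.lift_mk_le'.2 ⟨⟨A, hA⟩⟩
    rw [Cardinal.mk_Iio_ordinal, hcard, mk_set_nat, CH, h2] at this
    simp only [Cardinal.lift_lift, Cardinal.lift_le] at this
    exact absurd this (not_le.2 (Order.lt_succ _))
  · rintro S ⟨γ, hγ, f, f1, f2⟩
    let S' : Set Ordinal.{0} := Subtype.val '' S
    have hS : ∀ x ∈ S', x < w * w := by rintro _ ⟨x, -, rfl⟩; exact x.2
    have hm : ∀ x (h : x ∈ S'), (⟨x, hS x h⟩ : Iio (w * w)) ∈ S := by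
      rintro _ ⟨x, h, rfl⟩; exact h
    obtain ⟨a0, a1, a2⟩ := small hr S' (hw ▸ hγ)
      (fun x => if h : x ∈ S' then f ⟨_, hm x h⟩ else 0)
      (fun x hx y hy h => by simp only [dif_pos hx, dif_pos hy]; exact f1 _ _ h)
      (fun x hx => by simp only [dif_pos hx]; exact f2 _)
    rw [← hw] at a1 a2
    have : ∀ a, ∃ s < w, a < w → a0 ≤ a → ∀ b < w, w * a + b ∈ S' → b < s := by
      intro a
      by_cases c : a < w ∧ a0 ≤ a
      · obtain ⟨s, s1, s2⟩ := a2 a c.1 c.2
        exact ⟨s, s1, fun _ _ => s2⟩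
      · exact ⟨0, hl.pos, fun a b => absurd ⟨a, b⟩ c⟩
    choose β β1 β2 using this
    let cl : Ordinal.{0} → Ordinal.{0} := fun a => sInf {d | a < d ∧ ∀ x < d, β x < d}
    have hcl : ∀ a < w, cl a < w ∧ a < cl a ∧ ∀ x < cl a, β x < cl a := by
      intro a ha
      obtain ⟨d, d1, d2⟩ := closure_pt hr h0 β (fun a _ => hw ▸ β1 a) (hw ▸ ha)
      have d3 : d ∈ {d | a < d ∧ ∀ x < d, β x < d} := d2
      exact ⟨(csInf_le' d3).trans_lt (hw ▸ d1), csInf_mem ⟨d, d3⟩⟩
    have he : ∀ d, ∃ e : Ordinal.{0} → ℕ → Bool, d < w → InjOn e (Iio d) := by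
      intro d
      by_cases c : d < w
      · obtain ⟨e, he⟩ := inj (K := ℕ → Bool) (d := d) (by
          rw [← power_def, mk_bool, mk_nat, two_power_aleph0, CH]; exact hlt d c)
        exact ⟨e, fun _ => he⟩
      · exact ⟨fun _ _ => true, fun h => absurd h c⟩
    choose e he using he
    obtain ⟨c, hc⟩ := col w (fun a (o : Option ℕ) => o.elim (decide (a < a0))
      fun n => if a < a0 then e a0 a n else e (cl a) a n) S' (by
        intro x hx hlt h
        have h1 : decide (x / w < a0) = decide (x % w < a0) := congrFun h none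
        have h3 := fun n => congrFun h (some n)
        simp only [Option.elim] at h3
        have p1 := dv x (hS x hx)
        by_cases c : x / w < a0
        · have c' : x % w < a0 := by simpa [c] using h1
          simp only [if_pos c, if_pos c'] at h3
          exact hlt.ne (he a0 a1 c c' (funext h3))
        · have c' : ¬ x % w < a0 := by simpa [c] using h1
          simp only [if_neg c, if_neg c'] at h3
          have q1 := β2 _ p1 (not_lt.1 c) _ (md x) (by rwa [Ordinal.div_add_mod])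
          obtain ⟨r1, r2, r3⟩ := hcl _ p1
          obtain ⟨-, t2, t3⟩ := hcl _ (md x)
          have q2 : x % w < cl (x / w) := q1.trans (r3 _ r2)
          have q3 : cl (x % w) = cl (x / w) :=
            le_antisymm (csInf_le' ⟨q2, r3⟩) (csInf_le' ⟨hlt.trans t2, t3⟩)
          rw [q3] at h3
          exact hlt.ne (he _ r1 r2 q2 (funext h3)))
    exact ⟨SimpleGraph.Coloring.mk (fun x => Encodable.encode (c x.1.1)) fun {x y} hxy hh => by
      rcases hxy with h | h
      · exact hc _ ⟨_, x.2, rfl⟩ _ ⟨_, y.2, rfl⟩ h (Encodable.encode_injective hh)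
      · exact hc _ ⟨_, y.2, rfl⟩ _ ⟨_, x.2, rfl⟩ h (Encodable.encode_injective hh).symm⟩

end Pool.Agent.Results.MP_d06690_lc.UnderCH
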